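import Mathlib
import Pool.Agent.Helper55.JS.Walks

/-!
# Project JS, piece 16: collisions between two legs (MP_03a1f6_co, captain helper55)
-/

set_option autoImplicit false

namespace Pool.Agent.Helper55.JS

open Finset

variable {V : Type} [Fintype V] [DecidableEq V] {G : SimpleGraph V}

namespace P16

lemma mem_filter_univ_iff {α : Type} [Fintype α] (P : α → Prop) {inst : DecidablePred P} (x : α) :
    x ∈ (@Finset.filter α P inst univ) ↔ x ∈ (univ : Finset α) ∧ P x := by
  rw [mem_filter]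


open Classical in
/-- the walks of length `i` from `u` whose end is adjacent to `y` -/
noncomputable def pend (G : SimpleGraph V) (i : ℕ) (u y : V) : Finset (Fin (i + 1) → V) :=
  univ.filter fun p => IsWalk G p ∧ p 0 = u ∧ G.Adj (p (Fin.last i)) y

lemma card_pend (i : ℕ) (u y : V) : ((pend G i u y).card : ℝ) ≤ W G (i + 1) u y := by
  classical
  rw [← card_wk]
  norm_cast
  refine card_le_card_of_injOn (fun p => (Fin.snoc p y : Fin (i + 1 + 1) → V)) ?_ ?_
  · intro p hp
    unfold pend at hp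
    rw [mem_coe, mem_filter] at hp
    obtain ⟨_, h1, h2, h3⟩ := hp
    rw [mem_coe, mem_wk]
    refine ⟨h1.snoc h3, ?_, ?_⟩
    · have : (0 : Fin (i + 1 + 1)) = Fin.castSucc 0 := rfl
      beta_reduce
      rw [this, Fin.snoc_castSucc]
      exact h2
    · beta_reduce
      rw [Fin.snoc_last]
  · intro p _ q _ h
    have h1 : Fin.init (Fin.snoc p y : Fin (i + 1 + 1) → V) =
        Fin.init (Fin.snoc q y : Fin (i + 1 + 1) → V) := congrArg _ h
    rwa [Fin.init_snoc, Fin.init_snoc] at h1

variable {s : ℕ} {j : Fin s → ℕ} {c : Fin s}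

/-- the kernel of leg `b`, when leg `a` passes through `y` at distance `r` from the centre -/
noncomputable def kap (G : SimpleGraph V) (j : Fin s → ℕ) (a : {b : Fin s // b ≠ c}) (r : ℕ)
    (y : V) (b : {b : Fin s // b ≠ c}) (u z : V) : ℝ :=
  if b = a then W G r u y * W G (j b - r) y z else W G (j b) u z

lemma kap_nonneg (a : {b : Fin s // b ≠ c}) (r : ℕ) (y : V) (b : {b : Fin s // b ≠ c})
    (u z : V) : 0 ≤ kap G j a r y b u z := by
  unfold kap
  split_ifs
  · exact mul_nonneg (W_nonneg _ _ _) (W_nonneg _ _ _)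
  · exact W_nonneg _ _ _

open Classical in
/-- the legs of type `x` with centre `u` such that leg `a` passes through `y` at position `r` -/
noncomputable def legA (G : SimpleGraph V) (j : Fin s → ℕ) (a : {b : Fin s // b ≠ c}) (r : ℕ)
    (y u : V) (x : {b : Fin s // b ≠ c} → V) (b : {b : Fin s // b ≠ c}) :
    Finset (Fin (j b + 1) → V) :=
  (wk G (j b) u (x b)).filter fun p => b = a → ∀ h : r < j b + 1, p ⟨r, h⟩ = y

lemma card_legA (a : {b : Fin s // b ≠ c}) {r : ℕ} (hr : r ≤ j a) (y u : V)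
    (x : {b : Fin s // b ≠ c} → V) (b : {b : Fin s // b ≠ c}) :
    ((legA G j a r y u x b).card : ℝ) ≤ kap G j a r y b u (x b) := by
  classical
  unfold legA kap
  split_ifs with h
  · subst h
    refine le_trans (le_of_eq ?_) (card_wk_one hr u (x b) y)
    congr 2
    refine filter_congr fun p _ => ?_
    exact ⟨fun h1 => h1 rfl _, fun h1 _ _ => h1⟩
  · rw [← card_wk]
    norm_cast
    exact card_le_card (filter_subset _ _)

/-- the bound for the number of pairs with a collision at position `r` of leg `a` -/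
noncomputable def NN (G : SimpleGraph V) (j : Fin s → ℕ) (i : ℕ) (a : {b : Fin s // b ≠ c})
    (r : ℕ) (x : {b : Fin s // b ≠ c} → V) (y : V) : ℝ :=
  ∑ u, W G (i + 1) u y * ∏ b, kap G j a r y b u (x b)

lemma beta_le (i : ℕ) (x : {b : Fin s // b ≠ c} → V) (y : V) :
    βv G (oth G j c) (fun o => o.1) oX oS i x y ≤
      ∑ q : (Σ a : {b : Fin s // b ≠ c}, Fin (j a)), NN G j i q.1 (q.2 + 1) x y := by
  classical
  have key : ∀ (q : (Σ a : {b : Fin s // b ≠ c}, Fin (j a))) (u : V),
      (((univ : Finset (Oth V j c × (Fin (i + 1) → V))).filter fun f =>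
        f.1.1 = u ∧ (∀ b, f.1.2 b ∈ legA G j q.1 (q.2 + 1) y u x b) ∧
          f.2 ∈ pend G i u y).card : ℝ) ≤
      W G (i + 1) u y * ∏ b, kap G j q.1 (q.2 + 1) y b u (x b) := by
    intro q u
    calc _ ≤ (((pend G i u y) ×ˢ Fintype.piFinset
          (legA G j q.1 (q.2 + 1) y u x)).card : ℝ) := by
          norm_cast
          refine card_le_card_of_injOn (fun f => (f.2, f.1.2)) ?_ ?_
          · intro f hf
            rw [mem_coe, mem_filter] at hf
            rw [mem_coe, mem_product, Fintype.mem_piFinset]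
            exact ⟨hf.2.2.2, hf.2.2.1⟩
          · intro f hf g hg h
            rw [mem_coe, mem_filter] at hf hg
            rw [Prod.mk.injEq] at h
            exact Prod.ext (Prod.ext (hf.2.1.trans hg.2.1.symm) h.2) h.1
      _ ≤ _ := by
          rw [card_product, Fintype.card_piFinset, Nat.cast_mul, Nat.cast_prod]
          refine mul_le_mul (card_pend i u y) ?_ ?_ (W_nonneg _ _ _)
          · refine prod_le_prod (fun b _ => Nat.cast_nonneg _) fun b _ => ?_
            exact card_legA q.1 (by omega) y u x b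
          · exact prod_nonneg fun b _ => Nat.cast_nonneg _
  have h1 : βv G (oth G j c) (fun o => o.1) oX oS i x y ≤
      ∑ q : (Σ a : {b : Fin s // b ≠ c}, Fin (j a)), ∑ u,
        (((univ : Finset (Oth V j c × (Fin (i + 1) → V))).filter fun f =>
        f.1.1 = u ∧ (∀ b, f.1.2 b ∈ legA G j q.1 (q.2 + 1) y u x b) ∧
          f.2 ∈ pend G i u y).card : ℝ) := by
    unfold βv
    norm_cast
    refine le_trans (card_le_card ?_) (le_trans card_biUnion_le (sum_le_sum fun q _ =>
      card_biUnion_le))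
    intro f hf
    obtain ⟨_, h1, h2, h3, h4, h5, _, _, h8⟩ := (mem_filter_univ_iff _ _).1 hf
    unfold oth at h1
    rw [mem_filter] at h1
    obtain ⟨_, h1⟩ := h1
    unfold oS at h8
    rw [mem_biUnion] at h8
    obtain ⟨a, _, h8⟩ := h8
    rw [mem_image] at h8
    obtain ⟨r, _, h8⟩ := h8
    rw [mem_biUnion]
    refine ⟨⟨a, r⟩, mem_univ _, ?_⟩
    rw [mem_biUnion]
    refine ⟨f.1.1, mem_univ _, ?_⟩
    rw [mem_filter]
    refine ⟨mem_univ _, rfl, fun b => ?_, ?_⟩
    · unfold legA
      rw [mem_filter, mem_wk]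
      refine ⟨⟨h1.walk b, h1.start b, ?_⟩, ?_⟩
      · rw [← h2]; rfl
      · rintro rfl h
        rw [← h8]
        rfl
    · unfold pend
      rw [mem_filter]
      exact ⟨mem_univ _, h3, h4, h5⟩
  refine le_trans h1 (sum_le_sum fun q _ => ?_)
  unfold NN
  exact sum_le_sum fun u _ => key q u

omit [DecidableEq V] in
lemma sum_sq {ι : Type} [Fintype ι] [DecidableEq ι] (w : V → ℝ) (κ : ι → V → V → ℝ) :
    ∑ x : ι → V, (∑ u, w u * ∏ b, κ b u (x b)) ^ 2 =
      ∑ u, ∑ u', w u * w u' * ∏ b, ∑ z, κ b u z * κ b u' z := by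
  classical
  have h1 : ∀ x : ι → V, (∑ u, w u * ∏ b, κ b u (x b)) ^ 2 =
      ∑ u, ∑ u', w u * w u' * ∏ b, (κ b u (x b) * κ b u' (x b)) := by
    intro x
    rw [sq, sum_mul_sum]
    refine sum_congr rfl fun u _ => sum_congr rfl fun u' _ => ?_
    rw [prod_mul_distrib]
    ring
  simp only [h1]
  rw [sum_comm]
  refine sum_congr rfl fun u _ => ?_
  rw [sum_comm]
  refine sum_congr rfl fun u' _ => ?_
  rw [← mul_sum]
  congr 1
  have := Finset.prod_univ_sum (ι := ι) (t := fun _ => (univ : Finset V))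
    (f := fun b z => κ b u z * κ b u' z)
  rw [this, Fintype.piFinset_univ]

lemma sum_NN_sq {k : ℕ} (hjk : ∀ c, j c ≤ k) {T D : ℝ} (hT : 1 ≤ T) (hD : 0 < D)
    (hW : ∀ m ≤ 2 * k, ∀ x y, W G m x y ≤ T * D ^ m) {i : ℕ} (hi : i < j c)
    (a : {b : Fin s // b ≠ c}) {r : ℕ} (hr : r ≤ j a) (hr1 : 1 ≤ r) (y : V) :
    ∑ x, NN G j i a r x y ^ 2 ≤
      T ^ (Fintype.card {b : Fin s // b ≠ c} + 2) *
        D ^ (2 * ((∑ b : {b : Fin s // b ≠ c}, j b) + i + 1)) := by
  classical
  have hT0 : 0 ≤ T := by linarith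
  unfold NN
  rw [sum_sq (fun u => W G (i + 1) u y) (fun b => kap G j a r y b)]
  -- the kernels
  have hk : ∀ u u' (b : {b : Fin s // b ≠ c}), ∑ z, kap G j a r y b u z * kap G j a r y b u' z ≤
      (if b = a then W G r u y * W G r u' y else 1) *
        (T * D ^ (2 * (j b - if b = a then r else 0))) := by
    intro u u' b
    unfold kap
    split_ifs with h
    · subst h
      have h1 : ∑ z, W G r u y * W G (j b - r) y z * (W G r u' y * W G (j b - r) y z) =
          W G r u y * W G r u' y * W G (2 * (j b - r)) y y := by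
        rw [W_self_eq, mul_sum]
        exact sum_congr rfl fun z _ => by ring
      rw [h1]
      refine mul_le_mul_of_nonneg_left ?_ (mul_nonneg (W_nonneg _ _ _) (W_nonneg _ _ _))
      exact hW _ (by have := hjk b; omega) _ _
    · have h1 : ∑ z, W G (j b) u z * W G (j b) u' z = W G (j b + j b) u u' := by
        rw [W_add]
        exact sum_congr rfl fun z _ => by rw [W_symm (j b) z u']
      rw [h1, one_mul, Nat.sub_zero, ← two_mul]
      exact hW _ (by have := hjk b; omega) _ _
  have hprod : ∀ u u', ∏ b, ∑ z, kap G j a r y b u z * kap G j a r y b u' z ≤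
      W G r u y * W G r u' y * (T ^ (Fintype.card {b : Fin s // b ≠ c}) *
        D ^ (2 * ((∑ b : {b : Fin s // b ≠ c}, j b) - r))) := by
    intro u u'
    refine le_trans (prod_le_prod (fun b _ => sum_nonneg fun z _ =>
      mul_nonneg (kap_nonneg _ _ _ _ _ _) (kap_nonneg _ _ _ _ _ _)) fun b _ => hk u u' b) ?_
    rw [prod_mul_distrib, prod_mul_distrib, prod_pow_eq_pow_sum, prod_const, card_univ,
      prod_ite_eq' univ a, if_pos (mem_univ _)]
    have e : ∑ b : {b : Fin s // b ≠ c}, 2 * (j b - if b = a then r else 0) =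
        2 * ((∑ b : {b : Fin s // b ≠ c}, j b) - r) := by
      rw [← mul_sum]
      congr 1
      have e1 : ∑ b : {b : Fin s // b ≠ c}, (j b - if b = a then r else 0) + r =
          ∑ b : {b : Fin s // b ≠ c}, j b := by
        have e2 : r = ∑ b : {b : Fin s // b ≠ c}, (if b = a then r else 0) := by
          rw [sum_ite_eq' univ a, if_pos (mem_univ _)]
        conv_lhs => rw [show (∑ b : {b : Fin s // b ≠ c}, (j b - if b = a then r else 0)) + r =
          (∑ b : {b : Fin s // b ≠ c}, (j b - if b = a then r else 0)) +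
            ∑ b : {b : Fin s // b ≠ c}, (if b = a then r else 0) by rw [← e2]]
        rw [← sum_add_distrib]
        refine sum_congr rfl fun b _ => ?_
        split_ifs with h
        · subst h; omega
        · omega
      omega
    rw [e]
  calc ∑ u, ∑ u', W G (i + 1) u y * W G (i + 1) u' y *
        ∏ b, ∑ z, kap G j a r y b u z * kap G j a r y b u' z
      ≤ ∑ u, ∑ u', W G (i + 1) u y * W G (i + 1) u' y *
        (W G r u y * W G r u' y * (T ^ (Fintype.card {b : Fin s // b ≠ c}) *
        D ^ (2 * ((∑ b : {b : Fin s // b ≠ c}, j b) - r)))) :=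
        sum_le_sum fun u _ => sum_le_sum fun u' _ => mul_le_mul_of_nonneg_left (hprod u u')
          (mul_nonneg (W_nonneg _ _ _) (W_nonneg _ _ _))
    _ = W G (i + 1 + r) y y ^ 2 * (T ^ (Fintype.card {b : Fin s // b ≠ c}) *
        D ^ (2 * ((∑ b : {b : Fin s // b ≠ c}, j b) - r))) := by
        have h1 : W G (i + 1 + r) y y = ∑ u, W G (i + 1) u y * W G r u y := by
          rw [W_add]
          exact sum_congr rfl fun u _ => by rw [W_symm (i + 1) y u]
        rw [h1, sq, sum_mul_sum, sum_mul]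
        refine sum_congr rfl fun u _ => ?_
        rw [sum_mul]
        exact sum_congr rfl fun u' _ => by ring
    _ ≤ (T * D ^ (i + 1 + r)) ^ 2 * (T ^ (Fintype.card {b : Fin s // b ≠ c}) *
        D ^ (2 * ((∑ b : {b : Fin s // b ≠ c}, j b) - r))) := by
        refine mul_le_mul_of_nonneg_right ?_ (by positivity)
        refine pow_le_pow_left₀ (W_nonneg _ _ _) (hW _ ?_ _ _) 2
        have h1 := hjk c
        have h2 := hjk a
        omega
    _ = _ := by
        have hra : r ≤ ∑ b : {b : Fin s // b ≠ c}, j b :=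
          hr.trans (single_le_sum (f := fun b : {b : Fin s // b ≠ c} => j b)
            (fun b _ => Nat.zero_le _) (mem_univ a))
        obtain ⟨m, hm⟩ := Nat.exists_eq_add_of_le hra
        rw [hm, Nat.add_sub_cancel_left]
        rw [mul_pow, ← pow_mul]
        rw [show 2 * (r + m + i + 1) = (i + 1 + r) * 2 + 2 * m by ring, pow_add, pow_add]
        ring

end P16

/-- JS-16 -/
theorem beta_bound {s : ℕ} {j : Fin s → ℕ} {k : ℕ} (hjk : ∀ c, j c ≤ k) (c : Fin s) {T D : ℝ}
    (hT : 1 ≤ T) (hD : 0 < D) (hW : ∀ m ≤ 2 * k, ∀ x y, W G m x y ≤ T * D ^ m) {i : ℕ}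
    (hi : i < j c) :
    ∑ x, ∑ y, βv G (oth G j c) (fun o => o.1) oX oS i x y ^ 2 ≤
      ((∑ b, j b : ℕ) : ℝ) ^ 2 * T ^ (s + 1) * Fintype.card V *
        D ^ (2 * ((∑ b, j b) - j c + i + 1)) := by
  classical
  have hsum : ∑ b, j b = j c + ∑ b : {b : Fin s // b ≠ c}, j b :=
    Fintype.sum_eq_add_sum_subtype_ne j c
  have hcard : s = 1 + Fintype.card {b : Fin s // b ≠ c} := by
    have := Fintype.sum_eq_add_sum_subtype_ne (fun _ : Fin s => 1) c
    simpa using this
  set E : ℕ := ∑ b : {b : Fin s // b ≠ c}, j b with hE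
  set B : ℝ := T ^ (Fintype.card {b : Fin s // b ≠ c} + 2) * D ^ (2 * (E + i + 1)) with hB
  have hB0 : 0 ≤ B := by
    have : 0 ≤ T := by linarith
    positivity
  have hcq : (univ : Finset (Σ a : {b : Fin s // b ≠ c}, Fin (j a))).card = E := by
    rw [card_univ, Fintype.card_sigma]
    simp [hE]
  have h1 : ∀ x y, βv G (oth G j c) (fun o => o.1) oX oS i x y ^ 2 ≤
      (E : ℝ) * ∑ q : (Σ a : {b : Fin s // b ≠ c}, Fin (j a)),
        P16.NN G j i q.1 (q.2 + 1) x y ^ 2 := by
    intro x y
    have h0 : 0 ≤ βv G (oth G j c) (fun o => o.1) oX oS i x y := by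
      unfold βv
      exact Nat.cast_nonneg _
    refine le_trans (pow_le_pow_left₀ h0 (P16.beta_le i x y) 2) ?_
    have := sq_sum_le_card_mul_sum_sq (s := (univ : Finset (Σ a : {b : Fin s // b ≠ c},
      Fin (j a)))) (f := fun q => P16.NN G j i q.1 (q.2 + 1) x y)
    rw [hcq] at this
    exact this
  calc ∑ x, ∑ y, βv G (oth G j c) (fun o => o.1) oX oS i x y ^ 2
      ≤ ∑ x, ∑ y, (E : ℝ) * ∑ q : (Σ a : {b : Fin s // b ≠ c}, Fin (j a)),
        P16.NN G j i q.1 (q.2 + 1) x y ^ 2 :=
        sum_le_sum fun x _ => sum_le_sum fun y _ => h1 x y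
    _ = (E : ℝ) * ∑ q : (Σ a : {b : Fin s // b ≠ c}, Fin (j a)), ∑ y, ∑ x,
        P16.NN G j i q.1 (q.2 + 1) x y ^ 2 := by
        simp only [← mul_sum]
        congr 1
        have e1 : ∀ x : {b : Fin s // b ≠ c} → V,
            ∑ y, ∑ q : (Σ a : {b : Fin s // b ≠ c}, Fin (j a)),
              P16.NN G j i q.1 (q.2 + 1) x y ^ 2 =
            ∑ q : (Σ a : {b : Fin s // b ≠ c}, Fin (j a)), ∑ y,
              P16.NN G j i q.1 (q.2 + 1) x y ^ 2 := fun x => sum_comm
        simp only [e1]
        rw [sum_comm]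
        refine sum_congr rfl fun q _ => ?_
        rw [sum_comm]
    _ ≤ (E : ℝ) * ∑ q : (Σ a : {b : Fin s // b ≠ c}, Fin (j a)), ∑ y : V, B := by
        refine mul_le_mul_of_nonneg_left (sum_le_sum fun q _ => sum_le_sum fun y _ => ?_)
          (Nat.cast_nonneg _)
        exact P16.sum_NN_sq hjk hT hD hW hi q.1 (by omega) (by omega) y
    _ = (E : ℝ) ^ 2 * (Fintype.card V * B) := by
        rw [sum_const, sum_const, hcq, card_univ, nsmul_eq_mul, nsmul_eq_mul]
        ring
    _ ≤ ((∑ b, j b : ℕ) : ℝ) ^ 2 * (Fintype.card V * B) := by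
        refine mul_le_mul_of_nonneg_right ?_ (by positivity)
        refine pow_le_pow_left₀ (Nat.cast_nonneg _) ?_ 2
        rw [hsum]
        exact_mod_cast Nat.le_add_left _ _
    _ = _ := by
        rw [hB, hsum, Nat.add_sub_cancel_left]
        rw [show s + 1 = Fintype.card {b : Fin s // b ≠ c} + 2 by omega]
        ring

end Pool.Agent.Helper55.JS
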